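import Pool.Agent.H47.THN.Targets
import Pool.Agent.H27.ZF.TB

/-!
Page lx (MP_52e316_nt): the large sieve of GL(m) in `l²` form.
One Hecke operator, arbitrary coefficients; the energy of the lattices of exact index `n`.
-/

set_option autoImplicit false

namespace Pool.Agent.H20.LX

open MeasureTheory Pool.Agent.H27.L1.H34.GM Pool.Agent.H27.L1.H34.GZ Pool.Agent.H27.L1.H34.GU
  Pool.Agent.H27.L1.H34.GA Pool.Agent.H27.L1.H68.GHY Pool.Agent.H27.L1.H34.GHY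
open Pool.Agent.H27.L1.H68.GHK (ip rt Hn OrS)
open Pool.Agent.H47.THN (K1 B1)

open Classical in
/-- the majorant of the kernel with the weights `ω` of the determinant -/
noncomputable def Kw {m N : ℕ} (ω : ℕ → ENNReal) (d x0 : ℝ) (g : Mat m) (x : VN m N) (h : Mat m)
    (w : VN m N) : ENNReal :=
  ∑' γ : ZM m, if ac N γ x = w ∧ Pr w ∧ wd x0 d γ.det.natAbs ∧
    sz (kk (aN (cR γ)) h (cR γ) g - 1) ≤ d then ω γ.det.natAbs else 0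

/-- the energy at `g` -/
noncomputable def Ew {m : ℕ} (N : ℕ) [NeZero N] (D : Set (V m)) (ω : ℕ → ENNReal) (d x0 : ℝ)
    (g : Mat m) : ENNReal :=
  ∑ x : VN m N, ∫⁻ h in D, ∑ w : VN m N, (Kw ω d x0 g x (mt h) w) ^ 2 ∂(hm m)

open Classical in
/-- the energy of two sublattices of exact index -/
def T_EMX : Prop := ∀ m : ℕ, 1 ≤ m → ∀ C0 ε : ℝ, 0 ≤ C0 → 0 < ε → ∃ (C : ℝ) (K : ℕ), 0 < C ∧
  ∀ d : ℝ, 0 < d → d ≤ 1 →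
  ∀ (N : ℕ), 1 ≤ N → ∀ (b n : Mat m) (a : Fin m → ℝ) (k : Mat m), Sgl b n a k →
  1 ≤ aN b → aN b < Real.exp 1 → ∀ Y : ℝ, 1 ≤ Y →
  (∀ i j : Fin m, (i : ℕ) + 1 = j → a j ≤ Y * a i) → ∀ l : ℕ, 1 ≤ l →
  ∀ (sel : AddSubgroup (Fin m → ℤ) → ZM m) (vs : AddSubgroup (Fin m → ℤ) → Fin m → ℝ),
  Sel b sel vs →
    ∑' M : AddSubgroup (Fin m → ℤ), ∑' L : AddSubgroup (Fin m → ℤ),
      (if M.index = N ∧ L.index = l then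
        ENNReal.ofReal (∏ i, ∏ j, (1 + C0 * d * vs L i / vs M j)) else 0) ≤
      ENNReal.ofReal (C * (1 + Real.log (l * Y * N)) ^ K * (N : ℝ) ^ ((m : ℝ) - 1 + ε) *
        (l : ℝ) ^ ((m : ℝ) - 1 + ε) * (1 + d ^ m * l / N) ^ m * skw a)

open Classical in
/-- the square of the majorant -/
def T_H2X : Prop := ∀ m : ℕ, 1 ≤ m → ∃ C C0 : ℝ, 0 < C ∧ 0 ≤ C0 ∧
  ∀ (N : ℕ) [NeZero N] (D : Set (V m)), 1 ≤ N → DomZ m D → ∀ ω : ℕ → ENNReal, ω 0 = 0 →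
  (∀ n, ω n ≠ ⊤) → ∀ x0 d : ℝ, 0 < x0 → 0 < d → d ≤ 1 / 2 →
  ∀ (b n : Mat m) (a : Fin m → ℝ) (k : Mat m), Sgl b n a k →
  ∀ (sel : AddSubgroup (Fin m → ℤ) → ZM m) (vs : AddSubgroup (Fin m → ℤ) → Fin m → ℝ),
  Sel b sel vs → ∀ x : VN m N, Pr x →
    ∫⁻ h in D, ∑ z : VN m N, (Kw ω d x0 b x (mt h) z) ^ 2 ∂(hm m) ≤
      ENNReal.ofReal (C * d ^ (m ^ 2 - 1)) * ∑' L : AddSubgroup (Fin m → ℤ),
        (if wd x0 d L.index ∧ L.index ≠ 0 then ω L.index ^ 2 *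
            ENNReal.ofReal (∏ i, ∏ j, (1 + C0 * d * vs L i / vs (kl x) j)) else 0)

/-- the energy on `DY`, averaged over the window -/
def T_ENX : Prop := ∀ m : ℕ, 1 ≤ m → ∀ ε : ℝ, 0 < ε → ∃ (C : ℝ) (K : ℕ), 0 < C ∧
  ∀ (N : ℕ) [NeZero N] (D : Set (V m)), 1 ≤ N → DomZ m D → ∀ ω : ℕ → ENNReal, ω 0 = 0 →
  (∀ n, ω n ≠ ⊤) → ∀ y : ℕ, 1 ≤ y → (∀ n, y < n → ω n = 0) → ∀ Y d : ℝ, 2 ≤ Y →
  0 < d → d ≤ 1 / 2 →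
    ∫⁻ x0 in Set.Ioi (0 : ℝ), (∫⁻ g in DY D Y, Ew N D ω d x0 (mt g) ∂(hm m)) *
        ENNReal.ofReal x0⁻¹ ≤
      ENNReal.ofReal (C * d ^ (m ^ 2) * (N : ℝ) ^ ((m : ℝ) + ε) *
        (1 + Real.log (y * Y * N)) ^ K) * ∑ n ∈ Finset.Icc 1 y, ω n ^ 2 *
          ENNReal.ofReal ((n : ℝ) ^ ((m : ℝ) - 1 + ε) * (1 + d ^ m * n / N) ^ m)

/-! ### the kernel with arbitrary coefficients -/

/-- coefficients supported in `[1, y]` -/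
def Cfy (y : ℕ) (a : ℕ → ℂ) : Prop := ∀ n, a n ≠ 0 → 1 ≤ n ∧ n ≤ y

/-- majorant, measurability (also of the majorant) and eigenvalue -/
def T_KX1 : Prop := ∀ (m N : ℕ) [NeZero N], 1 ≤ m → 1 ≤ N → ∀ (χ : ℝ → ℝ), Prof χ →
  ∀ (y : ℕ) (a : ℕ → ℂ) (d x0 : ℝ), 1 ≤ y → Cfy y a → 0 < d → d ≤ 1 / 2 → 0 < x0 →
    (∀ (g h : Mat m) (x w : VN m N), ENNReal.ofReal ‖K1 (bi m χ d) a d x0 g x h w‖ ≤
      Kw (fun n => ENNReal.ofReal ‖a n‖) d x0 g x h w) ∧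
    (∀ x w : VN m N, Measurable (fun p : V m × V m =>
      K1 (bi m χ d) a d x0 (mt p.1) x (mt p.2) w)) ∧
    (∀ (ω : ℕ → ENNReal) (x w : VN m N), Measurable (fun p : ℝ × V m × V m =>
      Kw ω d p.1 (mt p.2.1) x (mt p.2.2) w)) ∧
    ∀ (T : ℕ → Finset (ZM m)) (D : Set (V m)), SysZ m N T D →
    ∀ (F : Mat m → VN m N → ℂ) (lam : ℕ → ℂ), HecA m N T F lam →
    ∀ (g : Mat m) (x : VN m N), g.det ≠ 0 →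
      ∫ z in D, ∑ w : VN m N, K1 (bi m χ d) a d x0 g x (mt z) w * F (mt z) w ∂(hm m) =
        B1 m lam a y d x0 * Rr (bi m χ d) 1 F g x

/-- the inequality of Bessel with the weights `W i`, on `DY D Y` -/
def BESX (m : ℕ) {ι : Type} [Fintype ι] (W : ι → ENNReal) (lam : ι → ℕ → ℂ) (N : ℕ) [NeZero N]
    (D : Set (V m)) (χ : ℝ → ℝ) (c δ Y : ℝ) : Prop :=
  ∀ (y : ℕ) (a : ℕ → ℂ) (x0 : ℝ), 1 ≤ y → Cfy y a → 0 < x0 →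
    ENNReal.ofReal (c * tb m χ δ ^ 2) * ∑ i, W i * ENNReal.ofReal (‖B1 m (lam i) a y δ x0‖ ^ 2) ≤
      ∫⁻ g in DY D Y, Ew N D (fun n => ENNReal.ofReal ‖a n‖) δ x0 (mt g) ∂(hm m)

/-- for orthonormal forms, weights `1` -/
def T_BOX : Prop := ∀ (m : ℕ) (χ : ℝ → ℝ), 1 ≤ m → Prof χ → ∃ (c C : ℝ) (A : ℕ), 0 < c ∧ 1 ≤ C ∧
  ∀ (N : ℕ) [NeZero N] (T : ℕ → Finset (ZM m)) (D : Set (V m)), SysZ m N T D →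
  ∀ (ι : Type) [Fintype ι] [DecidableEq ι] (F : ι → Mat m → VN m N → ℂ) (lam : ι → ℕ → ℂ) (P : ℝ),
  (∀ i, CusB m N T (F i) (lam i) ∧ Lip D (F i) P ∧ nU D (F i) = 1) → Orthn D F → 0 ≤ P →
  ∀ δ : ℝ, 0 < δ → δ ≤ 1 / 2 → δ * (1 + P) ≤ c →
  ∀ Y : ℝ, C * N * δ⁻¹ ^ A ≤ Y → BESX m (fun _ => 1) lam N D χ c δ Y

/-- for forms which generate orthogonal spaces, weights `≤ 1 / Hn` -/
def T_BWX : Prop := ∀ (m : ℕ) (χ : ℝ → ℝ) (r : ℝ), 1 ≤ m → Prof χ → 0 < r →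
  ∃ (c C : ℝ) (A : ℕ), 0 < c ∧ 1 ≤ C ∧
  ∀ (N : ℕ) [NeZero N] (T : ℕ → Finset (ZM m)) (D : Set (V m)), SysZ m N T D →
  ∀ (ι : Type) [Fintype ι] [DecidableEq ι] (F : ι → Mat m → VN m N → ℂ) (lam : ι → ℕ → ℂ) (P : ℝ),
  (∀ i, CusB m N T (F i) (lam i) ∧ Lip D (F i) P) → OrS D F → 0 ≤ P →
  ∀ δ : ℝ, 0 < δ → δ ≤ 1 / 2 → δ * (1 + P) ≤ c →
  ∀ Y : ℝ, C * N * δ⁻¹ ^ A ≤ Y →
    BESX m (fun i => ENNReal.ofReal (Hn r D (F i))⁻¹) lam N D χ c δ Y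

/-! ### the large sieve -/

/-- the large sieve for the short sums, with the weights `W i` -/
def LSDX (m : ℕ) (ε C : ℝ) (K : ℕ) {ι : Type} [Fintype ι] (W : ι → ENNReal) (lam : ι → ℕ → ℂ)
    (N : ℕ) (δ : ℝ) : Prop :=
  ∀ (y : ℕ) (a : ℕ → ℂ), 1 ≤ y → Cfy y a →
    ∑ i, W i * ∫⁻ x0 in Set.Ioi (0 : ℝ), ENNReal.ofReal (‖B1 m (lam i) a y δ x0‖ ^ 2 * x0⁻¹) ≤
      ENNReal.ofReal (C * δ ^ 2 * δ⁻¹ ^ (m ^ 2) * (N : ℝ) ^ ((m : ℝ) + ε) *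
        (1 + Real.log (y * N * δ⁻¹)) ^ K * (1 + δ ^ m * y / N) ^ m *
        ∑ n ∈ Finset.Icc 1 y, ‖a n‖ ^ 2 * (n : ℝ) ^ ((m : ℝ) - 1 + ε))

/-- the large sieve from the inequality of Bessel -/
def T_LSX : Prop := ∀ (m : ℕ), 1 ≤ m → ∀ (ε : ℝ), 0 < ε → ∀ (χ : ℝ → ℝ), Prof χ →
  ∀ (cM CM : ℝ) (AM : ℕ), 0 < cM → 1 ≤ CM →
    ∃ (C : ℝ) (K : ℕ), 0 < C ∧ ∀ (N : ℕ) [NeZero N] (D : Set (V m)), 1 ≤ N → DomZ m D →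
    ∀ δ : ℝ, 0 < δ → δ ≤ 1 / 2 → ∀ (ι : Type) [Fintype ι] (W : ι → ENNReal) (lam : ι → ℕ → ℂ),
    (∀ i, W i ≠ ⊤) → (∀ Y : ℝ, 2 ≤ Y → CM * N * δ⁻¹ ^ AM ≤ Y → BESX m W lam N D χ cM δ Y) →
      LSDX m ε C K W lam N δ

/-- the large sieve of `GL_m` for the families with admissible weights, in a window -/
def T_LXF : Prop := ∀ (m : ℕ) (ε : ℝ), 1 ≤ m → 0 < ε → ∃ C : ℝ, 0 < C ∧
  ∀ (N : ℕ) [NeZero N] (T : ℕ → Finset (ZM m)) (D : Set (V m)), SysZ m N T D →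
  ∀ P : ℝ, 1 ≤ P → ∀ (S : Type) [Fintype S] [DecidableEq S] (F : S → Mat m → VN m N → ℂ)
    (lam : S → ℕ → ℂ) (W : S → ℝ), Pool.Agent.H27.ZF.Fam T D P F lam W →
  ∀ (y : ℕ) (a : ℕ → ℂ) (τ : ℝ), 1 ≤ y →
    ∑ i, ENNReal.ofReal (W i) * ∫⁻ t in Set.Icc (-P) P,
      ENNReal.ofReal (‖∑ n ∈ Finset.Icc 1 y, a n * lam i n *
        (n : ℂ) ^ (-(((t + τ : ℝ) : ℂ) * Complex.I))‖ ^ 2) ≤
    ENNReal.ofReal (C * ((N : ℝ) * P * y) ^ ε * ((N : ℝ) ^ m * P ^ (m ^ 2)) *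
      (1 + y / (N * P ^ m)) ^ m * ∑ n ∈ Finset.Icc 1 y, ‖a n‖ ^ 2)

end Pool.Agent.H20.LX
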