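import Pool.Agent.H20.LX.T
import Pool.Agent.H12.ZR.T
import Pool.Agent.H47.ZF.TT

/-!
Page lx (MP_52e316_nt), targets 2: the logarithm of the L-function at the size of Montgomery's conjecture.
-/

set_option autoImplicit false

namespace Pool.Agent.H20.LX

open MeasureTheory Pool.Agent.H27.L1.H34.GM Pool.Agent.H27.L1.H34.GZ Pool.Agent.H27.L1.H34.GU
  Pool.Agent.H27.L1.H34.GA
open Pool.Agent.H27.ZF (Fam Eul UP lf bb qv)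
open Pool.Agent.H31.CT (Q3 Tw)
open Pool.Agent.H47.TZF (Wi)
open Pool.Agent.H12.ZR (Rb)

/-- the Dirichlet polynomial of the products of `l` different primes of `U` -/
noncomputable def DU (lam : ℕ → ℂ) (U : Finset ℕ) (y l : ℕ) (s : ℂ) : ℂ :=
  ∑ n ∈ Finset.Icc 1 y, bb U 1 l n * lam n * (n : ℂ) ^ (-s)

/-- the size of the products: the square root of the number of the products -/
noncomputable def bx (Q : ℝ) (j : ℕ) (σ : ℝ) : ℝ :=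
  √(1 / (Nat.factorial (lf Q j 1) : ℝ)) *
    (2 : ℝ) ^ ((j : ℝ) * lf Q j 1 / 2 - ((j : ℝ) - 1) * lf Q j 1 * σ)

/-- the bounds for the Dirichlet polynomials of the products, in mean square form -/
def Dx (lam : ℕ → ℂ) (Q z0 z A : ℝ) (s : ℂ) : Prop :=
  ∀ j : ℕ, 1 ≤ j → (2 : ℝ) ^ j ≤ Q →
    ‖DU lam (UP z0 z j) (2 ^ (j * lf Q j 1)) (lf Q j 1) s‖ ≤ A * bx Q j s.re

/-- the elementary symmetric sum as a Dirichlet polynomial -/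
def T_EDU : Prop := ∀ (m : ℕ) (lam : ℕ → ℂ) (q : ℕ → ℕ → ℂ), Eul m lam q →
  ∀ (z0 z : ℝ) (j l : ℕ), 1 ≤ j → 1 ≤ l → ∀ s : ℂ,
  ∑ S ∈ Finset.powersetCard l (UP z0 z j), ∏ p ∈ S, (lam p * (p : ℂ) ^ (-s)) =
    DU lam (UP z0 z j) (2 ^ (j * l)) l s

/-- the middle primes of one block, mean square form -/
def T_MIX : Prop := ∀ (C₀ e c B Q z0 z : ℝ) (lam : ℕ → ℂ) (j : ℕ) (s : ℂ), 1 ≤ C₀ →
    0 < e → 0 ≤ c → 2 * c ≤ e → e ≤ s.re → s.re ≤ B → 1 ≤ Q → 1 ≤ j → (2 : ℝ) ^ j ≤ Q →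
    Real.log Q ≤ 2 ^ j → (∀ p ∈ UP z0 z j, ‖lam p‖ ≤ C₀ * (p : ℝ) ^ e) →
    ‖∑ S ∈ Finset.powersetCard (lf Q j 1) (UP z0 z j), ∏ p ∈ S, (lam p * (p : ℂ) ^ (-s))‖ ≤
      Q ^ c * (√(1 / (Nat.factorial (lf Q j 1) : ℝ)) *
        (2 : ℝ) ^ ((j : ℝ) * lf Q j 1 / 2 - ((j : ℝ) - 1) * lf Q j 1 * s.re)) →
    ‖∑ p ∈ UP z0 z j, lam p * (p : ℂ) ^ (-s)‖ ≤
      8 * C₀ * (2 : ℝ) ^ B * √(Real.log Q) * (2 : ℝ) ^ (-((j : ℝ) * (s.re - 1 / 2 - e)))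

/-- the size of the logarithm of the L-function, after Montgomery -/
noncomputable def hx (e Y : ℝ) (s : ℂ) : ℝ := (1 + Real.log Y) ^ (max (1 - s.re) 0 + e)

/-- the logarithm of the product of the inverses of the local factors -/
def T_PRX : Prop := ∀ (m : ℕ) (d e B : ℝ), 1 ≤ m → 0 < d → d ≤ 1 / 2 → 0 < e → e < d → 1 ≤ B →
  ∃ c e1 C Q0 : ℝ, 0 < c ∧ 0 < e1 ∧ 0 < C ∧ 1 ≤ Q0 ∧
  ∀ (lam : ℕ → ℂ) (q : ℕ → ℕ → ℂ) (Q z : ℝ), Q0 ≤ Q → Eul m lam q → z ^ (4 * m) ≤ Q →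
  Rb m lam z e1 → ∀ s : ℂ, 1 / 2 + d ≤ s.re → s.re ≤ B → Dx lam Q (Real.log Q) z (Q ^ c) s →
    0 < ‖∏ p ∈ (Finset.range (⌊z⌋₊ + 1)).filter Nat.Prime, qv m (q p) ((p : ℂ) ^ (-s))‖ ∧
    |Real.log ‖∏ p ∈ (Finset.range (⌊z⌋₊ + 1)).filter Nat.Prime, qv m (q p) ((p : ℂ) ^ (-s))‖| ≤
      C * hx e Q s

/-- the logarithm of the L-function, all `s` with imaginary part `t`; Ramanujan's bounds for the primes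
up to `Q ^ κ`, where `κ` is chosen after `e1` -/
def T_NZX : Prop := ∀ (m : ℕ) (d e C0 : ℝ), 1 ≤ m → 0 < d → d ≤ 1 / 2 → 0 < e → 1 ≤ C0 →
  ∃ e1 B : ℝ, 0 < e1 ∧ 1 ≤ B ∧ ∀ κ : ℝ, 0 < κ → κ ≤ 1 / (4 * (m : ℝ)) →
  ∃ c C Q0 : ℝ, 0 < c ∧ 0 < C ∧ 1 ≤ Q0 ∧
  ∀ (lam : ℕ → ℂ) (q : ℕ → ℕ → ℂ) (L : ℂ → ℂ) (Q t : ℝ), Q0 ≤ Q → Eul m lam q →
  (∀ n : ℕ, 1 ≤ n → ‖lam n‖ ≤ C0 * (n : ℝ) ^ m) → Differentiable ℂ L →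
  (∀ s : ℂ, (m : ℝ) + 2 < s.re →
    HasSum (fun n : ℕ => if 1 ≤ n then lam n * (n : ℂ) ^ (-s) else 0) (L s)) →
  Rb m lam (Q ^ κ) e1 →
  (∀ s : ℂ, 1 / 2 + d / 2 ≤ s.re → s.re ≤ B → |s.im - t| ≤ B →
    ‖L s‖ ≤ Q ^ c ∧ Dx lam Q (Real.log Q) (Q ^ κ) (Q ^ c) s) →
  ∀ s : ℂ, 1 / 2 + d ≤ s.re → s.im = t →
    Real.exp (-(C * hx e Q s)) ≤ ‖L s‖ ∧ ‖L s‖ ≤ Real.exp (C * hx e Q s)

/-! ### the family -/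

/-- the large sieve in a window for the twisted Dirichlet polynomials of the products, at `σ + i (t + τ)` -/
def T_LDX : Prop := ∀ (m : ℕ) (B ε : ℝ), 1 ≤ m → 1 ≤ B → 0 < ε → ∃ C : ℝ, 0 < C ∧
  ∀ (N : ℕ) [NeZero N] (T : ℕ → Finset (ZM m)) (D : Set (V m)), SysZ m N T D →
  ∀ P : ℝ, 1 ≤ P → ∀ (S : Type) [Fintype S] [DecidableEq S] (F : S → Mat m → VN m N → ℂ)
    (lam : S → ℕ → ℂ) (W : S → ℝ), Fam T D P F lam W →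
  ∀ b : ℕ → ℂ, (∀ n, ‖b n‖ ≤ 1) → ∀ z0 z : ℝ, ∀ j : ℕ, 1 ≤ j → (2 : ℝ) ^ j ≤ N * P ^ m →
  ∀ σ τ : ℝ, 0 ≤ σ → σ ≤ B →
    ∑ i, ENNReal.ofReal (W i) * ∫⁻ t in Set.Icc (-P) P,
      ENNReal.ofReal (‖DU (fun n => b n * lam i n) (UP z0 z j) (2 ^ (j * lf (N * P ^ m) j 1))
        (lf (N * P ^ m) j 1) (σ + (t + τ) * Complex.I)‖ ^ 2) ≤
    ENNReal.ofReal (C * ((N : ℝ) * P) ^ ε * ((N : ℝ) ^ m * P ^ (m ^ 2)) *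
      bx (N * P ^ m) j σ ^ 2)

open Classical in
/-- the pairs of a form and a window with large Dirichlet polynomials, coefficients `c n * lam n` -/
def T_BDX : Prop := ∀ (m : ℕ) (B ε : ℝ), 1 ≤ m → 1 ≤ B → 0 < ε → ∃ C : ℝ, 0 < C ∧
  ∀ (N : ℕ) [NeZero N] (T : ℕ → Finset (ZM m)) (D : Set (V m)), SysZ m N T D →
  ∀ H : ℝ, 1 ≤ H → ∀ (S : Type) [Fintype S] [DecidableEq S] (F : S → Mat m → VN m N → ℂ)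
    (lam : S → ℕ → ℂ) (W : S → ℝ), Fam T D H F lam W →
  ∀ (c : ℕ → ℂ) (lamG : S → ℕ → ℂ), (∀ n, ‖c n‖ ≤ 1) → (∀ i n, 1 ≤ n → lamG i n = c n * lam i n) →
  ∀ t0 z0 z A : ℝ, 1 ≤ A →
    ∑ i, W i * (((Wi t0 H).filter (fun k : ℤ => ∃ s : ℂ, 1 / 2 ≤ s.re ∧ s.re ≤ B ∧
      |s.im - k| ≤ B ∧ ¬ Dx (lamG i) (N * H ^ m) z0 z A s)).card : ℝ) ≤
      C * ((N : ℝ) * H) ^ ε * ((N : ℝ) ^ m * H ^ (m ^ 2)) / A ^ 2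

open Classical in
/-- one level: few pairs of a form and an integer of the window where the logarithm of the twisted
L-function is large -/
def T_ZXT : Prop := ∀ (m : ℕ) (d e : ℝ), 1 ≤ m → 0 < d → 0 < e → ∃ a A : ℝ, 0 < a ∧ 0 < A ∧
  ∀ ε : ℝ, 0 < ε → ∃ C : ℝ, 0 < C ∧
  ∀ (N : ℕ) [NeZero N] (T : ℕ → Finset (ZM m)) (D : Set (V m)), SysZ m N T D →
  ∀ B0 H U : ℝ, 1 ≤ B0 → 1 ≤ H → H ≤ U → ∀ (S : Type) [Fintype S] [DecidableEq S]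
    (F : S → Mat m → VN m N → ℂ) (lam : S → ℕ → ℂ) (W : S → ℝ), Fam T D H F lam W →
  ∀ (c : ℕ → ℂ) (M : S → ℕ) [∀ i, NeZero (M i)] (G : ∀ i, Mat m → VN m (M i) → ℂ)
    (lamG : S → ℕ → ℂ), (∀ n, ‖c n‖ ≤ 1) → Tw m T D B0 U c lam M G lamG →
  ∀ L : S → ℂ → ℂ, (∀ i, IsL m 1 (lamG i) (L i)) → ∀ t0 : ℝ, H + |t0| ≤ U →
    ∑ i, W i * (((Finset.Icc ⌈t0 - H⌉ ⌊t0 + H⌋).filter (fun k : ℤ => ∃ s : ℂ, 1 / 2 + d ≤ s.re ∧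
      |s.im - k| ≤ 1 ∧ (‖L i s‖ < Real.exp (-(A * hx e (N * H ^ m) s)) ∨
        Real.exp (A * hx e (N * H ^ m) s) < ‖L i s‖))).card : ℝ) ≤
      C * ((N : ℝ) * B0 * U) ^ ε * Q3 m N B0 H U * ((N : ℝ) * H ^ m) ^ (-a)

end Pool.Agent.H20.LX
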